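import Pool.Agent.J4H88.ABG.Lie

/-!
# Derivations of the Allison-Benkart-Gao algebra, component by component (LIE 10, LIE 11)
-/

open scoped TensorProduct

namespace Pool.Agent.J4H48.ABG

open Pool.Agent.J4H88.ABG

attribute [local instance 100] LieRing.ofAssociativeRing

set_option linter.unusedSectionVars false

universe u v

section

variable (𝕜 : Type u) [Field 𝕜] [CharZero 𝕜]

theorem slBr_apply (X Y : sl3 𝕜) : slBr 𝕜 X Y = ⁅X, Y⁆ := rfl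

theorem anti_der (X Y Z : sl3 𝕜) :
    ⁅X, slAnti 𝕜 Y Z⁆ = slAnti 𝕜 ⁅X, Y⁆ Z + slAnti 𝕜 Y ⁅X, Z⁆ := by
  apply Subtype.ext
  have e1 : ((⁅X, slAnti 𝕜 Y Z⁆ : sl3 𝕜) : Matrix (Fin 3) (Fin 3) 𝕜) =
      X.1 * (slAnti 𝕜 Y Z : Matrix (Fin 3) (Fin 3) 𝕜) - (slAnti 𝕜 Y Z : Matrix (Fin 3) (Fin 3) 𝕜) * X.1 :=
    rfl
  have e2 : ((⁅X, Y⁆ : sl3 𝕜) : Matrix (Fin 3) (Fin 3) 𝕜) = X.1 * Y.1 - Y.1 * X.1 := rfl
  have e3 : ((⁅X, Z⁆ : sl3 𝕜) : Matrix (Fin 3) (Fin 3) 𝕜) = X.1 * Z.1 - Z.1 * X.1 := rfl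
  have e4 : ((slAnti 𝕜 ⁅X, Y⁆ Z + slAnti 𝕜 Y ⁅X, Z⁆ : sl3 𝕜) : Matrix (Fin 3) (Fin 3) 𝕜) =
      (slAnti 𝕜 ⁅X, Y⁆ Z : Matrix (Fin 3) (Fin 3) 𝕜) + (slAnti 𝕜 Y ⁅X, Z⁆ : Matrix (Fin 3) (Fin 3) 𝕜) :=
    rfl
  have ht : ((X.1 * Y.1 - Y.1 * X.1) * Z.1).trace + (Y.1 * (X.1 * Z.1 - Z.1 * X.1)).trace = 0 := by
    rw [sub_mul, mul_sub, Matrix.trace_sub, Matrix.trace_sub, ← mul_assoc, ← mul_assoc,
      Matrix.trace_mul_comm (Y.1 * Z.1) X.1, ← mul_assoc]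
    ring
  rw [e1, e4, slAnti_coe, slAnti_coe, slAnti_coe, e2, e3]
  have h5 : ((3⁻¹ : 𝕜) * ((X.1 * Y.1 - Y.1 * X.1) * Z.1).trace) • (1 : Matrix (Fin 3) (Fin 3) 𝕜) +
      ((3⁻¹ : 𝕜) * (Y.1 * (X.1 * Z.1 - Z.1 * X.1)).trace) • (1 : Matrix (Fin 3) (Fin 3) 𝕜) = 0 := by
    rw [← add_smul, ← mul_add, ht, mul_zero, zero_smul]
  have h6 : (2⁻¹ : 𝕜) • ((X.1 * Y.1 - Y.1 * X.1) * Z.1 + Z.1 * (X.1 * Y.1 - Y.1 * X.1)) +
      (2⁻¹ : 𝕜) • (Y.1 * (X.1 * Z.1 - Z.1 * X.1) + (X.1 * Z.1 - Z.1 * X.1) * Y.1) =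
      (2⁻¹ : 𝕜) • (X.1 * (Y.1 * Z.1 + Z.1 * Y.1) - (Y.1 * Z.1 + Z.1 * Y.1) * X.1) := by
    rw [← smul_add]
    congr 1
    noncomm_ring
  have h7 : X.1 * ((2⁻¹ : 𝕜) • (Y.1 * Z.1 + Z.1 * Y.1) -
      ((3⁻¹ : 𝕜) * (Y.1 * Z.1).trace) • (1 : Matrix (Fin 3) (Fin 3) 𝕜)) -
      ((2⁻¹ : 𝕜) • (Y.1 * Z.1 + Z.1 * Y.1) -
      ((3⁻¹ : 𝕜) * (Y.1 * Z.1).trace) • (1 : Matrix (Fin 3) (Fin 3) 𝕜)) * X.1 =
      (2⁻¹ : 𝕜) • (X.1 * (Y.1 * Z.1 + Z.1 * Y.1) - (Y.1 * Z.1 + Z.1 * Y.1) * X.1) := by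
    rw [mul_sub, sub_mul, Matrix.mul_smul, Matrix.mul_smul, Matrix.smul_mul, Matrix.smul_mul,
      Matrix.mul_one, Matrix.one_mul, smul_sub]
    abel
  rw [h7, ← h6]
  rw [← sub_eq_zero]
  have : ∀ a b c d : Matrix (Fin 3) (Fin 3) 𝕜, c + d = 0 → a + b - (a - c + (b - d)) = 0 := by
    intro a b c d h
    have : a + b - (a - c + (b - d)) = c + d := by abel
    rw [this, h]
  exact this _ _ _ _ h5

theorem tr_der (X Y Z : sl3 𝕜) :
    ((⁅X, Y⁆ : sl3 𝕜).1 * Z.1).trace + (Y.1 * (⁅X, Z⁆ : sl3 𝕜).1).trace = 0 := by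
  have e2 : (⁅X, Y⁆ : sl3 𝕜).1 = X.1 * Y.1 - Y.1 * X.1 := rfl
  have e3 : (⁅X, Z⁆ : sl3 𝕜).1 = X.1 * Z.1 - Z.1 * X.1 := rfl
  rw [e2, e3, sub_mul, mul_sub, Matrix.trace_sub, Matrix.trace_sub, ← mul_assoc, ← mul_assoc,
    Matrix.trace_mul_comm (Y.1 * Z.1) X.1, ← mul_assoc]
  ring

end

section

variable (𝕜 : Type u) [Field 𝕜] (A : Type v) [NonUnitalNonAssocRing A] [Module 𝕜 A]
  [IsScalarTower 𝕜 A A] [SMulCommClass 𝕜 A A] [IsAlt A] [CharZero 𝕜]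

theorem rT_brSS (X : sl3 𝕜) (u v : sl3 𝕜 ⊗[𝕜] A) :
    (slBr 𝕜 X).rTensor A (brSS 𝕜 A u v) =
      brSS 𝕜 A ((slBr 𝕜 X).rTensor A u) v + brSS 𝕜 A u ((slBr 𝕜 X).rTensor A v) := by
  induction u using TensorProduct.induction_on with
  | zero => simp
  | add x y hx hy => simp only [map_add, LinearMap.add_apply, hx, hy]; abel
  | tmul Y p =>
    induction v using TensorProduct.induction_on with
    | zero => simp
    | add x y hx hy => simp only [map_add, hx, hy]; abel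
    | tmul Z q =>
      simp only [LinearMap.rTensor_tmul, brSS_tmul, map_add, slBr_apply]
      rw [anti_der, leibniz_lie X Y Z, TensorProduct.add_tmul, TensorProduct.add_tmul]
      abel

theorem rT_actS (X : sl3 𝕜) (b : BB 𝕜 A) (u : sl3 𝕜 ⊗[𝕜] A) :
    (slBr 𝕜 X).rTensor A (actS 𝕜 A b u) = actS 𝕜 A b ((slBr 𝕜 X).rTensor A u) := by
  induction u using TensorProduct.induction_on with
  | zero => simp
  | add x y hx hy => simp only [map_add, hx, hy]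
  | tmul Y p => simp only [LinearMap.rTensor_tmul, actS_tmul]

theorem brSB_rT (X : sl3 𝕜) (u v : sl3 𝕜 ⊗[𝕜] A) :
    brSB 𝕜 A ((slBr 𝕜 X).rTensor A u) v + brSB 𝕜 A u ((slBr 𝕜 X).rTensor A v) = 0 := by
  induction u using TensorProduct.induction_on with
  | zero => simp
  | add x y hx hy =>
    simp only [map_add, LinearMap.add_apply]
    rw [← add_zero (0 : BB 𝕜 A)]
    nth_rewrite 1 [← hx]
    rw [← hy]
    abel
  | tmul Y p =>
    induction v using TensorProduct.induction_on with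
    | zero => simp
    | add x y hx hy =>
      simp only [map_add]
      rw [← add_zero (0 : BB 𝕜 A)]
      nth_rewrite 1 [← hx]
      rw [← hy]
      abel
    | tmul Z q =>
      simp only [LinearMap.rTensor_tmul, brSB_tmul, slBr_apply]
      rw [← add_smul, ← mul_add, tr_der, mul_zero, zero_smul]

variable {A}

theorem jor_der (E : A →ₗ[𝕜] A) (hE : ∀ x y, E (x * y) = E x * y + x * E y) (p q : A) :
    E (jor 𝕜 p q) = jor 𝕜 (E p) q + jor 𝕜 p (E q) := by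
  simp only [jor, LinearMap.smul_apply, LinearMap.add_apply, LinearMap.flip_apply,
    LinearMap.mul_apply', map_smul, map_add, hE, ← smul_add]
  congr 1
  abel

theorem comm_der (E : A →ₗ[𝕜] A) (hE : ∀ x y, E (x * y) = E x * y + x * E y) (p q : A) :
    E (Pool.Agent.J4H88.ABG.comm 𝕜 p q) =
      Pool.Agent.J4H88.ABG.comm 𝕜 (E p) q + Pool.Agent.J4H88.ABG.comm 𝕜 p (E q) := by
  have e : ∀ x y : A, Pool.Agent.J4H88.ABG.comm 𝕜 x y = x * y - y * x := fun _ _ => rfl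
  rw [e, e, e, map_sub, hE, hE]
  abel

theorem DD_der (E : A →ₗ[𝕜] A) (hE : ∀ x y, E (x * y) = E x * y + x * E y) (p q r : A) :
    E (DD 𝕜 p q r) = DD 𝕜 (E p) q r + DD 𝕜 p (E q) r + DD 𝕜 p q (E r) := by
  simp only [DD_apply, map_add, map_sub, hE, add_mul, mul_add]
  abel

theorem DB_der (E : A →ₗ[𝕜] A) (hE : ∀ x y, E (x * y) = E x * y + x * E y) (b : BB 𝕜 A) (r : A) :
    E (DB 𝕜 A b r) = DB 𝕜 A (BBmap 𝕜 E hE b) r + DB 𝕜 A b (E r) := by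
  induction b using BB_induction with
  | h0 => simp
  | hw p q => rw [BBmap_wedge, map_add, DB_wedge, DB_wedge, DB_wedge, LinearMap.add_apply, DD_der 𝕜 E hE]
  | hadd x y hx hy => simp only [map_add, LinearMap.add_apply, hx, hy]; abel

theorem lT_brSS (E : A →ₗ[𝕜] A) (hE : ∀ x y, E (x * y) = E x * y + x * E y)
    (u v : sl3 𝕜 ⊗[𝕜] A) :
    E.lTensor (sl3 𝕜) (brSS 𝕜 A u v) =
      brSS 𝕜 A (E.lTensor (sl3 𝕜) u) v + brSS 𝕜 A u (E.lTensor (sl3 𝕜) v) := by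
  induction u using TensorProduct.induction_on with
  | zero => simp
  | add x y hx hy => simp only [map_add, LinearMap.add_apply, hx, hy]; abel
  | tmul Y p =>
    induction v using TensorProduct.induction_on with
    | zero => simp
    | add x y hx hy => simp only [map_add, hx, hy]; abel
    | tmul Z q =>
      simp only [LinearMap.lTensor_tmul, brSS_tmul, map_add]
      rw [jor_der 𝕜 E hE, comm_der 𝕜 E hE, TensorProduct.tmul_add, TensorProduct.tmul_add]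
      abel

theorem lT_actS (E : A →ₗ[𝕜] A) (hE : ∀ x y, E (x * y) = E x * y + x * E y)
    (b : BB 𝕜 A) (u : sl3 𝕜 ⊗[𝕜] A) :
    E.lTensor (sl3 𝕜) (actS 𝕜 A b u) =
      actS 𝕜 A (BBmap 𝕜 E hE b) u + actS 𝕜 A b (E.lTensor (sl3 𝕜) u) := by
  induction u using TensorProduct.induction_on with
  | zero => simp
  | add x y hx hy => simp only [map_add, hx, hy]; abel
  | tmul Y p =>
    simp only [LinearMap.lTensor_tmul, actS_tmul]
    rw [DB_der 𝕜 E hE, TensorProduct.tmul_add]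

theorem BBmap_brSB (E : A →ₗ[𝕜] A) (hE : ∀ x y, E (x * y) = E x * y + x * E y)
    (u v : sl3 𝕜 ⊗[𝕜] A) :
    BBmap 𝕜 E hE (brSB 𝕜 A u v) =
      brSB 𝕜 A (E.lTensor (sl3 𝕜) u) v + brSB 𝕜 A u (E.lTensor (sl3 𝕜) v) := by
  induction u using TensorProduct.induction_on with
  | zero => simp
  | add x y hx hy => simp only [map_add, LinearMap.add_apply, hx, hy]; abel
  | tmul Y p =>
    induction v using TensorProduct.induction_on with
    | zero => simp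
    | add x y hx hy => simp only [map_add, hx, hy]; abel
    | tmul Z q =>
      simp only [LinearMap.lTensor_tmul, brSB_tmul, map_smul, BBmap_wedge, smul_add]

theorem BBmap_BBbr (E : A →ₗ[𝕜] A) (hE : ∀ x y, E (x * y) = E x * y + x * E y)
    (b c : BB 𝕜 A) :
    BBmap 𝕜 E hE (BBbr 𝕜 A b c) =
      BBbr 𝕜 A (BBmap 𝕜 E hE b) c + BBbr 𝕜 A b (BBmap 𝕜 E hE c) := by
  induction c using BB_induction with
  | h0 => simp
  | hadd x y hx hy => simp only [map_add, hx, hy]; abel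
  | hw r s =>
    simp only [BBbr_wedge, BBmap_wedge, map_add, DB_der 𝕜 E hE, LinearMap.add_apply]
    abel

end

end Pool.Agent.J4H48.ABG
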