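import Pool.Agent.J4H88.ABG.Act
import Pool.Agent.J4H19.ABG.Hbr

/-!
# A graded basis of the Allison-Benkart-Gao algebra (job GB)
-/

open scoped TensorProduct

namespace Pool.Agent.J4H48.ABG

open Pool.Agent.J4H88.ABG
open Pool.Agent.J4H19.ABG (inS inB SB hbr_sl hbr_B sl3_eq)

attribute [local instance 100] LieRing.ofAssociativeRing

set_option linter.unusedSectionVars false
set_option linter.unusedSimpArgs false

universe u v

section sl

variable (𝕜 : Type u) [Field 𝕜]

/-- the basis of `sl_3` -/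
noncomputable def v8 : Fin 8 → sl3 𝕜 := ![e1 𝕜, e2 𝕜, e3 𝕜, f1 𝕜, f2 𝕜, f3 𝕜, h1 𝕜, h2 𝕜]

/-- the weights -/
def W8 : Fin 8 → ℤ × ℤ :=
  ![(2, -1), (-1, 2), (1, 1), (-2, 1), (1, -2), (-1, -1), (0, 0), (0, 0)]

theorem v8_li : LinearIndependent 𝕜 (v8 𝕜) := by
  rw [Fintype.linearIndependent_iff]
  intro g hg
  have key : ∀ i j : Fin 3, (∑ k, g k • (v8 𝕜 k).1 i j) = 0 := by
    intro i j
    have h1 : ((∑ k, g k • v8 𝕜 k : sl3 𝕜) : Matrix (Fin 3) (Fin 3) 𝕜) i j = 0 := by
      rw [hg]; rfl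
    have h2 : ((∑ k, g k • v8 𝕜 k : sl3 𝕜) : Matrix (Fin 3) (Fin 3) 𝕜) =
        ∑ k, g k • (v8 𝕜 k).1 := by
      rw [← LieSubalgebra.coe_incl, map_sum]
      rfl
    rw [h2, Matrix.sum_apply] at h1
    exact h1
  have k01 := key 0 1
  have k12 := key 1 2
  have k02 := key 0 2
  have k10 := key 1 0
  have k21 := key 2 1
  have k20 := key 2 0
  have k00 := key 0 0
  have k11 := key 1 1
  simp [Fin.sum_univ_eight, v8, e1, e2, e3, f1, f2, f3, h1, h2] at k01 k12 k02 k10 k21 k20 k00 k11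
  intro i
  fin_cases i
  · exact k01
  · exact k12
  · exact k02
  · exact k10
  · exact k21
  · exact k20
  · exact k00
  · rw [k00] at k11
    simpa using k11

theorem v8_span : ⊤ ≤ Submodule.span 𝕜 (Set.range (v8 𝕜)) := by
  intro X _
  have hm : ∀ i, v8 𝕜 i ∈ Submodule.span 𝕜 (Set.range (v8 𝕜)) := fun i =>
    Submodule.subset_span ⟨i, rfl⟩
  rw [sl3_eq 𝕜 X]
  exact Submodule.add_mem _ (Submodule.add_mem _ (Submodule.add_mem _ (Submodule.add_mem _
    (Submodule.add_mem _ (Submodule.add_mem _ (Submodule.add_mem _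
    (Submodule.smul_mem _ _ (hm 0)) (Submodule.smul_mem _ _ (hm 1)))
    (Submodule.smul_mem _ _ (hm 2))) (Submodule.smul_mem _ _ (hm 3)))
    (Submodule.smul_mem _ _ (hm 4))) (Submodule.smul_mem _ _ (hm 5)))
    (Submodule.smul_mem _ _ (hm 6))) (Submodule.smul_mem _ _ (hm 7))

/-- the basis of `sl_3` -/
noncomputable def s8 : Module.Basis (Fin 8) 𝕜 (sl3 𝕜) := Module.Basis.mk (v8_li 𝕜) (v8_span 𝕜)

theorem s8_apply (i : Fin 8) : s8 𝕜 i = v8 𝕜 i := by
  unfold s8
  rw [Module.Basis.mk_apply]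

theorem w8_1 (i : Fin 8) : slBr 𝕜 (h1 𝕜) (v8 𝕜 i) = ((W8 i).1 : 𝕜) • v8 𝕜 i := by
  change ⁅h1 𝕜, v8 𝕜 i⁆ = _
  apply Subtype.ext
  change (h1 𝕜).1 * (v8 𝕜 i).1 - (v8 𝕜 i).1 * (h1 𝕜).1 = ((W8 i).1 : 𝕜) • (v8 𝕜 i).1
  fin_cases i <;> ext a b <;> fin_cases a <;> fin_cases b <;>
    simp [v8, W8, e1, e2, e3, f1, f2, f3, h1, h2, Matrix.mul_apply, Fin.sum_univ_three,
      Matrix.single_apply] <;> norm_num

theorem w8_2 (i : Fin 8) : slBr 𝕜 (h2 𝕜) (v8 𝕜 i) = ((W8 i).2 : 𝕜) • v8 𝕜 i := by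
  change ⁅h2 𝕜, v8 𝕜 i⁆ = _
  apply Subtype.ext
  change (h2 𝕜).1 * (v8 𝕜 i).1 - (v8 𝕜 i).1 * (h2 𝕜).1 = ((W8 i).2 : 𝕜) • (v8 𝕜 i).1
  fin_cases i <;> ext a b <;> fin_cases a <;> fin_cases b <;>
    simp [v8, W8, e1, e2, e3, f1, f2, f3, h1, h2, Matrix.mul_apply, Fin.sum_univ_three,
      Matrix.single_apply] <;> norm_num

/-- the number of basis vectors of weight `w` -/
theorem W8_card (w : ℤ × ℤ) : {k | W8 k = w}.ncard =
    if w = (0, 0) then 2
    else if w ∈ ([(2, -1), (-1, 2), (1, 1), (-2, 1), (1, -2), (-1, -1)] : List (ℤ × ℤ)) then 1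
    else 0 := by
  have h : {k | W8 k = w}.ncard = (Finset.univ.filter fun k => W8 k = w).card := by
    rw [← Set.ncard_coe_finset]
    congr 1
    ext k
    simp
  rw [h]
  by_cases h0 : w = (0, 0)
  · subst h0
    decide
  rw [if_neg h0]
  by_cases h1 : w ∈ ([(2, -1), (-1, 2), (1, 1), (-2, 1), (1, -2), (-1, -1)] : List (ℤ × ℤ))
  · rw [if_pos h1]
    simp only [List.mem_cons, List.not_mem_nil, or_false] at h1
    rcases h1 with rfl | rfl | rfl | rfl | rfl | rfl <;> decide
  · rw [if_neg h1, Finset.card_eq_zero, Finset.filter_eq_empty_iff]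
    intro k _ hk
    simp only [List.mem_cons, List.not_mem_nil, or_false, not_or] at h1
    obtain ⟨a1, a2, a3, a4, a5, a6⟩ := h1
    fin_cases k
    · exact a1 hk.symm
    · exact a2 hk.symm
    · exact a3 hk.symm
    · exact a4 hk.symm
    · exact a5 hk.symm
    · exact a6 hk.symm
    · exact h0 hk.symm
    · exact h0 hk.symm

end sl

section BBb

variable (𝕜 : Type u) [Field 𝕜] {A : Type u} [NonUnitalNonAssocRing A] [Module 𝕜 A]
  [IsScalarTower 𝕜 A A] [SMulCommClass 𝕜 A A] [IsAlt A]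

/-- an eigenbasis of `B(A)` -/
theorem BB_basis {ι : Type u} (b : Module.Basis ι 𝕜 A) (deg : ι → ℕ) (E : A →ₗ[𝕜] A)
    (hE : ∀ i, E (b i) = (deg i : 𝕜) • b i) (hder : ∀ x y, E (x * y) = E x * y + x * E y)
    (h1 : ∀ i, 1 ≤ deg i) (hfin : ∀ n, {i | deg i = n}.Finite) :
    ∃ (J : Type u) (c : Module.Basis J 𝕜 (BB 𝕜 A)) (dg : J → ℕ),
      (∀ j, BBmap 𝕜 E hder (c j) = (dg j : 𝕜) • c j) ∧ (∀ j, 2 ≤ dg j) ∧
      (∀ n, {j | dg j = n}.Finite) ∧ ∀ j, ∃ p q, c j = wedge 𝕜 p q := by
  classical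
  obtain ⟨s, hs⟩ : ∃ s : Set (BB 𝕜 A), s = Set.range fun p : ι × ι => wedge 𝕜 (b p.1) (b p.2) :=
    ⟨_, rfl⟩
  have hspan : ⊤ ≤ Submodule.span 𝕜 s := by
    intro t ht
    clear ht
    induction t using BB_induction with
    | h0 => exact Submodule.zero_mem _
    | hadd x y hx hy => exact Submodule.add_mem _ hx hy
    | hw p q =>
      have hp : p ∈ Submodule.span 𝕜 (Set.range b) := by rw [b.span_eq]; trivial
      have hq : q ∈ Submodule.span 𝕜 (Set.range b) := by rw [b.span_eq]; trivial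
      induction hp using Submodule.span_induction with
      | zero => rw [map_zero, LinearMap.zero_apply]; exact Submodule.zero_mem _
      | add x y _ _ hx hy => rw [map_add, LinearMap.add_apply]; exact Submodule.add_mem _ hx hy
      | smul a x _ hx => rw [map_smul, LinearMap.smul_apply]; exact Submodule.smul_mem _ _ hx
      | mem x hx =>
        obtain ⟨i, rfl⟩ := hx
        induction hq using Submodule.span_induction with
        | zero => rw [map_zero]; exact Submodule.zero_mem _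
        | add x y _ _ hx hy => rw [map_add]; exact Submodule.add_mem _ hx hy
        | smul a x _ hx => rw [map_smul]; exact Submodule.smul_mem _ _ hx
        | mem x hx =>
          obtain ⟨j, rfl⟩ := hx
          apply Submodule.subset_span
          rw [hs]
          exact ⟨(i, j), rfl⟩
  have hs2 : ∀ x ∈ s, ∃ p : ι × ι, wedge 𝕜 (b p.1) (b p.2) = x := by
    rw [hs]
    rintro x ⟨p, rfl⟩
    exact ⟨p, rfl⟩
  let c := Module.Basis.ofSpan hspan
  have hc : ∀ j, ∃ p : ι × ι, wedge 𝕜 (b p.1) (b p.2) = c j := by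
    intro j
    have h2 : c j ∈ s := Module.Basis.ofSpan_subset hspan ⟨j, rfl⟩
    exact hs2 _ h2
  choose P hP using hc
  refine ⟨_, c, fun j => deg (P j).1 + deg (P j).2, ?_, ?_, ?_, ?_⟩
  · intro j
    rw [← hP j, BBmap_wedge, hE, hE, map_smul, map_smul, LinearMap.smul_apply, ← add_smul]
    push_cast
    rfl
  · intro j
    have := h1 (P j).1
    have := h1 (P j).2
    show 2 ≤ deg (P j).1 + deg (P j).2
    omega
  · intro n
    have hinj : Function.Injective P := by
      intro i j hij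
      apply c.injective
      rw [← hP i, ← hP j, hij]
    have hF : (⋃ k ∈ Set.Iic n, {i | deg i = k}).Finite :=
      (Set.finite_Iic n).biUnion fun k _ => hfin k
    have hF2 : ((⋃ k ∈ Set.Iic n, {i | deg i = k}) ×ˢ (⋃ k ∈ Set.Iic n, {i | deg i = k})).Finite :=
      hF.prod hF
    refine Set.Finite.subset (hF2.preimage hinj.injOn) ?_
    intro j hj
    have hj' : deg (P j).1 + deg (P j).2 = n := hj
    refine ⟨?_, ?_⟩
    · simp only [Set.mem_iUnion]
      exact ⟨deg (P j).1, by simp only [Set.mem_Iic]; omega, rfl⟩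
    · simp only [Set.mem_iUnion]
      exact ⟨deg (P j).2, by simp only [Set.mem_Iic]; omega, rfl⟩
  · intro j
    exact ⟨_, _, (hP j).symm⟩

end BBb

theorem t_GB (𝕜 : Type u) [Field 𝕜] (A : Type u) [NonUnitalNonAssocRing A] [Module 𝕜 A]
    [IsScalarTower 𝕜 A A] [SMulCommClass 𝕜 A A] [IsAlt A] [CharZero 𝕜]
    {ι : Type u} (b : Module.Basis ι 𝕜 A) (deg : ι → ℕ) (E : A →ₗ[𝕜] A)
    (hE : ∀ i, E (b i) = (deg i : 𝕜) • b i) (hder : ∀ x y, E (x * y) = E x * y + x * E y)
    (h1 : ∀ i, 1 ≤ deg i) (hfin : ∀ n, {i | deg i = n}.Finite)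
    (hprod : ∀ i, 2 ≤ deg i → b i ∈ Submodule.span 𝕜 {x | ∃ p q : A, x = p * q}) :
    ∃ β : ℕ → ℕ, β 1 = 0 ∧
      Nonempty (GrBasis 𝕜 (ABG 𝕜 A) (slAct 𝕜 A) (fun n => {i | deg i = n}.ncard) β) := by
  classical
  obtain ⟨J, cB, dg, hB1, hB2, hB3, hB4⟩ := BB_basis 𝕜 b deg E hE hder h1 hfin
  refine ⟨fun n => {j | dg j = n}.ncard, ?_, ⟨?_⟩⟩
  · have : {j | dg j = 1} = ∅ := by
      ext j
      have := hB2 j
      simp only [Set.mem_ofPred_eq, Set.mem_empty_iff_false, iff_false]
      omega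
    show {j | dg j = 1}.ncard = 0
    rw [this, Set.ncard_empty]
  let cS : Module.Basis (Fin 8 × ι) 𝕜 (sl3 𝕜 ⊗[𝕜] A) := (s8 𝕜).tensorProduct b
  let c : Module.Basis ((Fin 8 × ι) ⊕ J) 𝕜 (ABG 𝕜 A) := cS.prod cB
  have hcl : ∀ k, c (Sum.inl k) = inS 𝕜 A (v8 𝕜 k.1 ⊗ₜ b k.2) := by
    intro k
    refine Prod.ext ?_ ?_
    · change (cS.prod cB (Sum.inl k)).1 = _
      rw [Module.Basis.prod_apply_inl_fst, Module.Basis.tensorProduct_apply', s8_apply]
      rfl
    · change (cS.prod cB (Sum.inl k)).2 = _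
      rw [Module.Basis.prod_apply_inl_snd]
      rfl
  have hcr : ∀ j, c (Sum.inr j) = inB 𝕜 A (cB j) := by
    intro j
    refine Prod.ext ?_ ?_
    · change (cS.prod cB (Sum.inr j)).1 = _
      rw [Module.Basis.prod_apply_inr_fst]
      rfl
    · change (cS.prod cB (Sum.inr j)).2 = _
      rw [Module.Basis.prod_apply_inr_snd]
      rfl
  have actS_ : ∀ X t, slAct 𝕜 A X (inS 𝕜 A t) = inS 𝕜 A ((slBr 𝕜 X).rTensor A t) := fun X t => rfl
  have actB_ : ∀ X t, slAct 𝕜 A X (inB 𝕜 A t) = 0 := by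
    intro X t
    refine Prod.ext ?_ rfl
    change (slBr 𝕜 X).rTensor A 0 = 0
    rw [map_zero]
  have derS_ : ∀ t, der 𝕜 E hder (inS 𝕜 A t) = inS 𝕜 A (E.lTensor (sl3 𝕜) t) := by
    intro t
    refine Prod.ext rfl ?_
    change BBmap 𝕜 E hder 0 = 0
    rw [map_zero]
  have derB_ : ∀ t, der 𝕜 E hder (inB 𝕜 A t) = inB 𝕜 A (BBmap 𝕜 E hder t) := by
    intro t
    refine Prod.ext ?_ rfl
    change E.lTensor (sl3 𝕜) 0 = 0
    rw [map_zero]
  exact
    { I := (Fin 8 × ι) ⊕ J
      ord := IsWellOrder.linearOrder WellOrderingRel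
      c := c
      dg := Sum.elim (fun k => deg k.2) dg
      wt := Sum.elim (fun k => W8 k.1) (fun _ => (0, 0))
      E := der 𝕜 E hder
      hE := by
        rintro (k | j)
        · rw [hcl, derS_, LinearMap.lTensor_tmul, hE, TensorProduct.tmul_smul, map_smul]
          rfl
        · rw [hcr, derB_, hB1, map_smul]
          rfl
      hcomm := by
        intro X x
        refine Prod.ext ?_ ?_
        · change E.lTensor (sl3 𝕜) ((slBr 𝕜 X).rTensor A x.1) =
            (slBr 𝕜 X).rTensor A (E.lTensor (sl3 𝕜) x.1)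
          rw [← LinearMap.comp_apply, ← LinearMap.comp_apply, LinearMap.lTensor_comp_rTensor,
            LinearMap.rTensor_comp_lTensor]
        · change BBmap 𝕜 E hder 0 = 0
          rw [map_zero]
      hw1 := by
        rintro (k | j)
        · rw [hcl, actS_, LinearMap.rTensor_tmul, w8_1, ← TensorProduct.smul_tmul', map_smul]
          rfl
        · rw [hcr, actB_]
          change (0 : ABG 𝕜 A) = ((0 : ℤ) : 𝕜) • _
          rw [Int.cast_zero, zero_smul]
      hw2 := by
        rintro (k | j)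
        · rw [hcl, actS_, LinearMap.rTensor_tmul, w8_2, ← TensorProduct.smul_tmul', map_smul]
          rfl
        · rw [hcr, actB_]
          change (0 : ABG 𝕜 A) = ((0 : ℤ) : 𝕜) • _
          rw [Int.cast_zero, zero_smul]
      hdg := by
        rintro (k | j)
        · exact h1 k.2
        · exact le_trans (by norm_num) (hB2 j)
      hfin := by
        intro n
        have e : {i : (Fin 8 × ι) ⊕ J | Sum.elim (fun k => deg k.2) dg i = n} ⊆
            Sum.inl '' ((Set.univ : Set (Fin 8)) ×ˢ {i | deg i = n}) ∪ Sum.inr '' {j | dg j = n} := by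
          rintro (k | j) h
          · exact Or.inl ⟨k, ⟨trivial, h⟩, rfl⟩
          · exact Or.inr ⟨j, h, rfl⟩
        exact (((Set.finite_univ.prod (hfin n)).image _).union ((hB3 n).image _)).subset e
      hcount := by
        intro n w _
        have e : {i : (Fin 8 × ι) ⊕ J | Sum.elim (fun k => deg k.2) dg i = n ∧
            Sum.elim (fun k => W8 k.1) (fun _ => ((0, 0) : ℤ × ℤ)) i = w} =
            Sum.inl '' ({k | W8 k = w} ×ˢ {i | deg i = n}) ∪
              Sum.inr '' {j | dg j = n ∧ w = (0, 0)} := by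
          ext i
          rcases i with k | j
          · simp only [Set.mem_ofPred_eq, Sum.elim_inl, Set.mem_union, Set.mem_image, Set.mem_prod,
              Sum.inl.injEq, exists_eq_right, reduceCtorEq, and_false, exists_false, or_false]
            exact And.comm
          · simp only [Set.mem_ofPred_eq, Sum.elim_inr, Set.mem_union, Set.mem_image,
              Sum.inr.injEq, exists_eq_right, reduceCtorEq, and_false, exists_false, false_or]
            exact and_congr_right fun _ => eq_comm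
        have f1 : (Sum.inl '' ({k | W8 k = w} ×ˢ {i | deg i = n}) :
            Set ((Fin 8 × ι) ⊕ J)).Finite :=
          (((Set.finite_univ.subset (Set.subset_univ _)).prod (hfin n)).image _)
        have f2 : (Sum.inr '' {j | dg j = n ∧ w = (0, 0)} : Set ((Fin 8 × ι) ⊕ J)).Finite :=
          ((hB3 n).subset fun j hj => hj.1).image _
        have hdis : Disjoint (Sum.inl '' ({k | W8 k = w} ×ˢ {i | deg i = n}) :
            Set ((Fin 8 × ι) ⊕ J)) (Sum.inr '' {j | dg j = n ∧ w = (0, 0)}) := by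
          rw [Set.disjoint_left]
          rintro _ ⟨k, _, rfl⟩ ⟨j, _, h⟩
          exact absurd h (by simp)
        rw [e, Set.ncard_union_eq hdis f1 f2, Set.ncard_image_of_injective _ Sum.inl_injective,
          Set.ncard_image_of_injective _ Sum.inr_injective, Set.ncard_prod, W8_card]
        unfold mlt
        by_cases h0 : w = (0, 0)
        · subst h0
          simp
        · rw [if_neg h0, if_neg h0]
          have e3 : {j | dg j = n ∧ w = (0, 0)} = (∅ : Set J) := by
            ext j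
            simp [h0]
          rw [e3, Set.ncard_empty, add_zero]
          split_ifs
          · rw [one_mul]
          · rw [zero_mul]
      hbr := by
        rintro (k | j) h
        · rw [hcl]
          have hb := hprod k.2 h
          have key : ∀ t ∈ Submodule.span 𝕜 {x | ∃ p q : A, x = p * q},
              inS 𝕜 A (v8 𝕜 k.1 ⊗ₜ t) ∈ SB 𝕜 A := by
            intro t ht
            induction ht using Submodule.span_induction with
            | zero => rw [TensorProduct.tmul_zero, map_zero]; exact Submodule.zero_mem _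
            | add x y _ _ hx hy => rw [TensorProduct.tmul_add, map_add]; exact Submodule.add_mem _ hx hy
            | smul a x _ hx => rw [TensorProduct.tmul_smul, map_smul]; exact Submodule.smul_mem _ _ hx
            | mem x hx =>
              obtain ⟨p, q, rfl⟩ := hx
              exact hbr_sl 𝕜 _ p q
          exact key _ hb
        · rw [hcr]
          obtain ⟨p, q, hpq⟩ := hB4 j
          rw [hpq]
          exact hbr_B 𝕜 p q }

end Pool.Agent.J4H48.ABG
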